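import Mathlib
import Pool.Agent.Helper38.Flag.Opts
import Pool.Agent.Helper38.Flag.Tree
import Pool.Agent.FC.RowB11

/-!
# Flag coloring on two-coloured caterpillars: the winner depends on a comparison of leaf numbers
-/

set_option autoImplicit false

namespace Pool.Agent.Results.MP_49dfe2_lc.LeafComparison

open Pool.H38.Flag

/-- `caterpillar ℓ` is the caterpillar with `ℓ i` leaves at the `i`-th spine vertex,
`twoColouring ℓ` its proper colouring by two colours, `Lost G χ` / `Won G χ` say that the player to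
move at the position `(G, χ)` of the flag coloring game loses / wins.

(1) The caterpillar with five spine vertices that carry `a`, `2`, `3`, `b`, `1` leaves is a tree,
the colouring is proper, and the player to move loses iff `b < a` and `a + b` is even, or `a < b`
and `a + b` is odd; otherwise the player to move wins.

(2) For all `t` and `m ≥ 1` there are two such caterpillars with the same spine, the same leaf
numbers capped at `t` and the same leaf numbers modulo `m`, such that the player to move loses on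
the first and wins on the second. -/
theorem result :
    (∀ a b : ℕ,
      (caterpillar ![a, 2, 3, b, 1]).IsTree ∧
      (∀ x y, (caterpillar ![a, 2, 3, b, 1]).Adj x y →
        twoColouring ![a, 2, 3, b, 1] x ≠ twoColouring ![a, 2, 3, b, 1] y) ∧
      (Lost (caterpillar ![a, 2, 3, b, 1]) (twoColouring ![a, 2, 3, b, 1]) ↔
        (b < a ∧ Even (a + b)) ∨ (a < b ∧ Odd (a + b))) ∧
      (Won (caterpillar ![a, 2, 3, b, 1]) (twoColouring ![a, 2, 3, b, 1]) ↔
        ¬ ((b < a ∧ Even (a + b)) ∨ (a < b ∧ Odd (a + b))))) ∧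
    (∀ t m : ℕ, 0 < m → ∃ ℓ ℓ' : Fin 5 → ℕ,
      (∀ i, min (ℓ i) t = min (ℓ' i) t ∧ ℓ i % m = ℓ' i % m) ∧
      Lost (caterpillar ℓ) (twoColouring ℓ) ∧ Won (caterpillar ℓ') (twoColouring ℓ')) := by
  have key : ∀ a b : ℕ,
      (Lost (caterpillar ![a, 2, 3, b, 1]) (twoColouring ![a, 2, 3, b, 1]) ↔
        (b < a ∧ Even (a + b)) ∨ (a < b ∧ Odd (a + b))) ∧
      (Won (caterpillar ![a, 2, 3, b, 1]) (twoColouring ![a, 2, 3, b, 1]) ↔
        ¬ ((b < a ∧ Even (a + b)) ∨ (a < b ∧ Odd (a + b)))) := by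
    intro a b
    have h1 := lost_caterpillar ![a, 2, 3, b, 1] (k := fun m => [a, 2, 3, b, 1].getD m 0)
      (by intro i; fin_cases i <;> rfl)
    have h2 : LoF 5 (fun m => [a, 2, 3, b, 1].getD m 0) ↔
        (b < a ∧ (a + b) % 2 = 0) ∨ (a < b ∧ (a + b) % 2 = 1) :=
      Pool.Agent.FC.rowB (Lo := Lo) lo_opts a b
    have h3 : ((b < a ∧ (a + b) % 2 = 0) ∨ (a < b ∧ (a + b) % 2 = 1)) ↔
        ((b < a ∧ Even (a + b)) ∨ (a < b ∧ Odd (a + b))) := by
      rw [Nat.even_iff, Nat.odd_iff]
    exact ⟨h1.1.trans (h2.trans h3), h1.2.trans (not_congr (h2.trans h3))⟩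
  refine ⟨fun a b => ⟨isTree_caterpillar _, twoColouring_ne _, (key a b).1, (key a b).2⟩, ?_⟩
  intro t m hm
  refine ⟨![t + 2 * m, 2, 3, t, 1], ![t, 2, 3, t + 2 * m, 1], ?_, ?_, ?_⟩
  · intro i
    fin_cases i
    · simp
    · simp
    · simp
    · simp
    · simp
  · rw [(key _ _).1]
    exact Or.inl ⟨by omega, by rw [Nat.even_iff]; omega⟩
  · rw [(key _ _).2, Nat.even_iff, Nat.odd_iff]
    omega

end Pool.Agent.Results.MP_49dfe2_lc.LeafComparison
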