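import Pool.Agent.Flag80.Many

namespace Pool.Agent.Results.MP_49dfe2_lc.PendantLeaves

open Flag80

/-- The flag colouring game with any number of colours on a finite graph `G` with leaves attached at
a vertex `v`, each attached leaf having the colour `c` or the colour of `v`: let `e` be the number
of edges of `G` whose ends have different colours and `m ≥ e + 1` the number of attached leaves
whose colour is not the colour of `v` (so it is `c`). If there are `m + 2` such leaves instead, the
winner does not change. -/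
theorem result {V : Type} [Finite V] (G : SimpleGraph V) (v : V)
    (c : ℕ) (X X' : ℕ) (χ : V ⊕ Fin X → ℕ) (χ' : V ⊕ Fin X' → ℕ)
    (hI : ∀ j, χ (Sum.inr j) = c ∨ χ (Sum.inr j) = χ (Sum.inl v))
    (hI' : ∀ j, χ' (Sum.inr j) = c ∨ χ' (Sum.inr j) = χ' (Sum.inl v))
    (hκ : ∀ y : V, χ' (Sum.inl y) = χ (Sum.inl y))
    (h1 : bichrom G (fun y => χ (Sum.inl y)) + 1 ≤ freeLeaves v X χ)
    (hx : freeLeaves v X' χ' = freeLeaves v X χ + 2) :
    (Wins (bunch G v X) χ ↔ Wins (bunch G v X') χ') ∧
    (Loses (bunch G v X) χ ↔ Loses (bunch G v X') χ') := by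
  have key : Wins (bunch G v X) χ ↔ Wins (bunch G v X') χ' := by
    rw [gwins_iff hI, gwins_iff hI']
    have e1 : bst v X χ = (fun y => χ (Sum.inl y), freeLeaves v X χ) := rfl
    have e2 : bst v X' χ' = (fun y => χ (Sum.inl y), freeLeaves v X χ + 2) :=
      Prod.ext (funext hκ) hx
    rw [e1, e2]
    exact (gperiod _ _ rfl _ h1).symm
  refine ⟨key, ?_⟩
  rw [gloses_iff hI, gloses_iff hI', key]

end Pool.Agent.Results.MP_49dfe2_lc.PendantLeaves
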