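import Pool.Agent.Flag80.Period

namespace Pool.Agent.Results.MP_49dfe2_lc.PendantPaths

open Flag80

/-- The two-coloured flag colouring game on a finite connected graph `G` (for instance a tree or a
planar graph) with a path attached at a vertex `v`: let `e` be the number of edges of `G` whose ends
have different colours and `x ≥ 3 e` the number of colour changes along the attached path. If the
path is replaced by one with `x + 3` colour changes, the winner does not change. -/
theorem result {V : Type} [Finite V] (G : SimpleGraph V) (hG : G.Connected) (v : V)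
    (c0 c1 : ℕ) (X X' : ℕ) (χ : V ⊕ Fin X → ℕ) (χ' : V ⊕ Fin X' → ℕ)
    (hT : ∀ a, χ a = c0 ∨ χ a = c1) (hT' : ∀ a, χ' a = c0 ∨ χ' a = c1)
    (hκ : ∀ y : V, χ' (Sum.inl y) = χ (Sum.inl y))
    (h3 : 3 * bichrom G (fun y => χ (Sum.inl y)) ≤ pchg v X χ)
    (hx : pchg v X' χ' = pchg v X χ + 3) :
    (Wins (pend G v X) χ ↔ Wins (pend G v X') χ') ∧
    (Loses (pend G v X) χ ↔ Loses (pend G v X') χ') := by
  have key : Wins (pend G v X) χ ↔ Wins (pend G v X') χ' := by
    rw [wins_iff hT, wins_iff hT']
    have e1 : st v X χ = (fun y => χ (Sum.inl y), pchg v X χ) := rfl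
    have e2 : st v X' χ' = (fun y => χ (Sum.inl y), pchg v X χ + 3) :=
      Prod.ext (funext hκ) hx
    rw [e1, e2]
    by_cases hcc : c0 = c1
    · -- a single colour: there is no colour change at all
      exfalso
      have hp : pchg v X' χ' = 0 := by
        unfold pchg
        rw [Finset.card_eq_zero, Finset.eq_empty_iff_forall_notMem]
        intro t ht
        apply (mem_pbich.1 ht).2
        rcases hT' (pt v X' t) with h | h <;> rcases hT' (pt v X' (t + 1)) with h' | h' <;>
          rw [h, h'] <;> simp [hcc]
      omega
    · exact (period hG hcc _ _ (fun y => hT (Sum.inl y)) rfl _ h3).symm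
  refine ⟨key, ?_⟩
  rw [loses_iff hT, loses_iff hT', key]

end Pool.Agent.Results.MP_49dfe2_lc.PendantPaths
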