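import Pool.Agent.Flag80.Bisim

namespace Pool.Agent.Results.MP_49dfe2_lc.ThreeLegs

open Flag80

theorem sum_lt {s s' : Fin 3 → ℕ} (h : AMove s s') : s' 0 + s' 1 + s' 2 < s 0 + s 1 + s 2 := by
  rcases h with ⟨i, hi, rfl⟩ | ⟨i, hi, rfl⟩ | ⟨⟨i, hi⟩, rfl⟩
  · fin_cases i <;> simp [Function.update] at hi ⊢ <;> omega
  · fin_cases i <;> simp [Function.update] at hi ⊢ <;> omega
  · fin_cases i <;> simp at hi ⊢ <;> omega

theorem alpha {s s' : Fin 3 → ℕ} (hP : P (s 0) (s 1) (s 2)) (h : AMove s s') :
    ¬ P (s' 0) (s' 1) (s' 2) := by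
  have red : ∀ (i : Fin 3) (x' d : ℕ), (d = 1 ∨ d = 2) → s i = x' + d →
      ¬ P (Function.update s i x' 0) (Function.update s i x' 1) (Function.update s i x' 2) := by
    intro i x' d hd hx
    fin_cases i
    · have hx' : s 0 = x' + d := hx
      have e0 : Function.update s 0 x' 0 = x' := Function.update_self ..
      have e1 : Function.update s 0 x' 1 = s 1 := Function.update_of_ne (by decide) ..
      have e2 : Function.update s 0 x' 2 = s 2 := Function.update_of_ne (by decide) ..
      rw [hx'] at hP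
      have := alphaA x' d (s 1) (s 2) hd hP
      show ¬ P (Function.update s 0 x' 0) (Function.update s 0 x' 1) (Function.update s 0 x' 2)
      rw [e0, e1, e2]; exact this
    · have hx' : s 1 = x' + d := hx
      have e0 : Function.update s 1 x' 0 = s 0 := Function.update_of_ne (by decide) ..
      have e1 : Function.update s 1 x' 1 = x' := Function.update_self ..
      have e2 : Function.update s 1 x' 2 = s 2 := Function.update_of_ne (by decide) ..
      rw [P_swap12, hx'] at hP
      have := alphaA x' d (s 0) (s 2) hd hP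
      rw [P_swap12] at this
      show ¬ P (Function.update s 1 x' 0) (Function.update s 1 x' 1) (Function.update s 1 x' 2)
      rw [e0, e1, e2]; exact this
    · have hx' : s 2 = x' + d := hx
      have e0 : Function.update s 2 x' 0 = s 0 := Function.update_of_ne (by decide) ..
      have e1 : Function.update s 2 x' 1 = s 1 := Function.update_of_ne (by decide) ..
      have e2 : Function.update s 2 x' 2 = x' := Function.update_self ..
      rw [P_swap23, P_swap12, hx'] at hP
      have := alphaA x' d (s 0) (s 1) hd hP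
      rw [P_swap12, P_swap23] at this
      show ¬ P (Function.update s 2 x' 0) (Function.update s 2 x' 1) (Function.update s 2 x' 2)
      rw [e0, e1, e2]; exact this
  rcases h with ⟨i, hi, hs⟩ | ⟨i, hi, hs⟩ | ⟨⟨i, hi⟩, hs⟩
  · subst hs
    exact red i (s i - 1) 1 (Or.inl rfl) (by omega)
  · subst hs
    exact red i (s i - 2) 2 (Or.inr rfl) (by omega)
  · subst hs
    apply alphaS _ _ _ hP
    fin_cases i
    · left; exact hi
    · right; left; exact hi
    · right; right; exact hi

theorem beta {s : Fin 3 → ℕ} (hP : ¬ P (s 0) (s 1) (s 2)) :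
    ∃ s', AMove s s' ∧ P (s' 0) (s' 1) (s' 2) := by
  have red : ∀ (i : Fin 3) (x' : ℕ), (s i = x' + 1 ∨ s i = x' + 2) →
      AMove s (Function.update s i x') := by
    intro i x' hx
    rcases hx with hx | hx
    · left
      exact ⟨i, by omega, by rw [hx]; rfl⟩
    · right; left
      exact ⟨i, by omega, by rw [hx]; rfl⟩
  rcases ans_all _ _ _ hP with ⟨x', h, h'⟩ | ⟨y', h, h'⟩ | ⟨z', h, h'⟩ | ⟨h, h'⟩
  · refine ⟨_, red 0 x' h, ?_⟩
    have e0 : Function.update s 0 x' 0 = x' := Function.update_self ..
    have e1 : Function.update s 0 x' 1 = s 1 := Function.update_of_ne (by decide) ..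
    have e2 : Function.update s 0 x' 2 = s 2 := Function.update_of_ne (by decide) ..
    rw [e0, e1, e2]; exact h'
  · refine ⟨_, red 1 y' h, ?_⟩
    have e0 : Function.update s 1 y' 0 = s 0 := Function.update_of_ne (by decide) ..
    have e1 : Function.update s 1 y' 1 = y' := Function.update_self ..
    have e2 : Function.update s 1 y' 2 = s 2 := Function.update_of_ne (by decide) ..
    rw [e0, e1, e2]; exact h'
  · refine ⟨_, red 2 z' h, ?_⟩
    have e0 : Function.update s 2 z' 0 = s 0 := Function.update_of_ne (by decide) ..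
    have e1 : Function.update s 2 z' 1 = s 1 := Function.update_of_ne (by decide) ..
    have e2 : Function.update s 2 z' 2 = z' := Function.update_self ..
    rw [e0, e1, e2]; exact h'
  · refine ⟨_, Or.inr (Or.inr ⟨?_, rfl⟩), h'⟩
    rcases h with h' | h' | h'
    · exact ⟨0, h'⟩
    · exact ⟨1, h'⟩
    · exact ⟨2, h'⟩

theorem main (L : Fin 3 → ℕ) (c0 c1 : ℕ) : ∀ (n : ℕ) (χ : SV L → ℕ),
    (∀ x, χ x = c0 ∨ χ x = c1) → changes L χ 0 + changes L χ 1 + changes L χ 2 = n →
    (P (changes L χ 0) (changes L χ 1) (changes L χ 2) → Loses (spider L) χ) ∧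
    (¬ P (changes L χ 0) (changes L χ 1) (changes L χ 2) → Wins (spider L) χ) := by
  intro n
  induction n using Nat.strong_induction_on with
  | _ n ih =>
    intro χ hT hn
    refine ⟨fun hP χ' hm => ?_, fun hP => ?_⟩
    · obtain ⟨hT', hA⟩ := bisim_move hT hm
      exact (ih _ (hn ▸ sum_lt hA) χ' hT' rfl).2 (alpha hP hA)
    · obtain ⟨s', hA, hP'⟩ := beta hP
      obtain ⟨χ', hm, hs⟩ := bisim_real hT hA
      subst hs
      obtain ⟨hT', -⟩ := bisim_move hT hm
      exact Wins.intro χ χ' hm ((ih _ (hn ▸ sum_lt hA) χ' hT' rfl).1 hP')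

/-- The two-coloured flag colouring game on a tree with at most three leaves (a spider with legs of
lengths `L 0, L 1, L 2 ≥ 0`), for every colouring `χ` with at most two colours: with the numbers of
colour changes along the three legs, the player to move loses iff the sorted numbers `a ≤ b ≤ c`
satisfy `(a = 0 ∨ a + 2 ≤ b) ∧ 3 ∣ b + c - a`, or `a = b ≥ 2 ∧ 3 ∣ c + 1`, or
`a = b = 1 ∧ c ≠ 2 ∧ 3 ∣ c`. -/
theorem result (L : Fin 3 → ℕ) (χ : SV L → ℕ) (c0 c1 : ℕ) (h : ∀ x, χ x = c0 ∨ χ x = c1) :
    (P (changes L χ 0) (changes L χ 1) (changes L χ 2) → Loses (spider L) χ) ∧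
    (¬ P (changes L χ 0) (changes L χ 1) (changes L χ 2) → Wins (spider L) χ) :=
  main L c0 c1 _ χ h rfl

end Pool.Agent.Results.MP_49dfe2_lc.ThreeLegs
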